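import Pool.Agent.H988.TorC
set_option autoImplicit false

/-!
# The infinitesimal Torelli theorem
-/

open Complex Filter Topology MeasureTheory Set Metric

namespace Pool.Agent.H988.TOR

open Pool.Agent.H840.AS

theorem sum_split (e c : Fin 5 → ℂ) {x : ℂ} (k : Fin 5) (hk : x - e k ≠ 0) :
    (x - e k) * ∑ l, c l / (2 * (x - e l)) =
      c k / 2 + (x - e k) * ∑ l ∈ Finset.univ.erase k, c l / (2 * (x - e l)) := by
  rw [← Finset.add_sum_erase Finset.univ _ (Finset.mem_univ k), mul_add]
  congr 1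
  field_simp

theorem closure_Dn {e : Fin 5 → ℂ} (he : RSep e) (k : Fin 5) : e k ∈ closure (Dn e) := by
  have h1 : Tendsto (fun n : ℕ => e k + ((1 / ((n:ℝ) + 1) : ℝ) : ℂ) * I) atTop (𝓝 (e k)) := by
    have h2 : Tendsto (fun n : ℕ => ((1 / ((n:ℝ) + 1) : ℝ) : ℂ)) atTop (𝓝 ((0:ℝ):ℂ)) :=
      (Complex.continuous_ofReal.tendsto 0).comp tendsto_one_div_add_atTop_nhds_zero_nat
    have h3 := (h2.mul_const I).const_add (e k)
    simpa using h3
  refine mem_closure_of_tendsto h1 (Eventually.of_forall fun n => ?_)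
  exact Dn_above he k (by positivity)

theorem main {e : Fin 5 → ℂ} (he : Near e) (n : Fin 5 → ℂ) (m : Fin 2 → ℂ) {p : ℕ} (hp : p ≤ 1)
    (h0 : ∀ j : ℕ, 1 ≤ j → j ≤ 4 → Ln (hT e n m p) (ln j) = 0) :
    ∃ a b c : ℂ, ∀ k, a + b * e k + c * e k ^ 2 = -(n k * e k ^ p) := by
  have pr := pr_hT he.sep n m hp
  -- the entire function
  have hfin : (Set.range e).Finite := Set.finite_range e
  have hne : ∀ x, x ∉ Set.range e → ∀ k, x - e k ≠ 0 := by
    intro x hx k h
    exact hx ⟨k, (sub_eq_zero.1 h).symm⟩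
  obtain ⟨C1, hC1⟩ := EE_near he pr h0
  obtain ⟨g, hg, hgE⟩ := extend (f := EE e (hT e n m p) (hT' e n m p)) hfin
    (fun x hx => EE_diff he pr h0 (hne x hx)) (by
      rintro s ⟨k, rfl⟩
      refine ⟨C1 + ‖EE e (hT e n m p) (hT' e n m p) (e k)‖, ?_⟩
      rw [eventually_map]
      have h1 : ∀ᶠ z in 𝓝[≠] (e k), z ∈ closedBall (e k) (1/8) :=
        mem_nhdsWithin_of_mem_nhds (closedBall_mem_nhds _ (by norm_num))
      filter_upwards [h1, self_mem_nhdsWithin] with z hz hz'
      rw [mem_closedBall, dist_eq_norm] at hz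
      refine (norm_sub_le _ _).trans ?_
      gcongr
      exact hC1 k z hz' hz)
  obtain ⟨C2, hC2, hinf⟩ := EE_inf he pr h0
  obtain ⟨a, b, c, habc⟩ := quadratic hg hC2 (fun x hx => by
    rw [hgE x]
    · exact hinf x hx
    · rintro ⟨k, rfl⟩
      have := he.sep.bd k
      linarith)
  refine ⟨a, b, c, fun k => ?_⟩
  -- the differential equation
  have hode : ∀ x ∈ Dn e, (b + 2 * c * x) = (a + b * x + c * x ^ 2) * ∑ l, 1 / (2 * (x - e l)) +
      x ^ p * (∑ l, n l / (2 * (x - e l))) - (m 0 + m 1 * x) := by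
    intro x hx
    have h1 : (fun y => a + b * y + c * y ^ 2) =ᶠ[𝓝 x] fun y => rt e y * Up (hT e n m p) y := by
      filter_upwards [(isOpen_Dn e).mem_nhds hx] with y hy
      rw [← habc y, hgE y, EE_up hy]
      rintro ⟨l, rfl⟩
      exact Dn_ne hy l (sub_self _)
    have h2 := (hasDerivAt_rt hx).mul (pr.g.hasDerivAt he.sep hx)
    have h3 : HasDerivAt (fun y : ℂ => a + b * y + c * y ^ 2) (b + 2 * c * x) x := by
      have := (((hasDerivAt_id' x).const_mul b).const_add a).add
        (((hasDerivAt_id' x).pow 2).const_mul c)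
      refine this.congr_deriv ?_
      push_cast
      ring
    have h4 := h3.unique (h2.congr_of_eventuallyEq h1)
    have h5 := h1.self_of_nhds
    have h6 : rt e x ≠ 0 := rt_ne (Dn_ne hx)
    have h7 : rt e x * hT e n m p x = x ^ p * (∑ l, n l / (2 * (x - e l))) - (m 0 + m 1 * x) := by
      unfold hT
      field_simp
    simp only at h5
    rw [h4, h5]
    linear_combination h7
  -- the limit
  have hcont : ∀ c' : Fin 5 → ℂ, ContinuousAt
      (fun x => ∑ l ∈ Finset.univ.erase k, c' l / (2 * (x - e l))) (e k) := by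
    intro c'
    refine tendsto_finsetSum _ fun l hl => ?_
    have h1 : 2 * (e k - e l) ≠ 0 :=
      mul_ne_zero two_ne_zero (sub_ne_zero.2 fun h => (Finset.ne_of_mem_erase hl) (he.inj h).symm)
    have h2 : ContinuousAt (fun x => c' l / (2 * (x - e l))) (e k) :=
      ContinuousAt.div (by fun_prop) (by fun_prop) h1
    exact h2
  set F : ℂ → ℂ := fun x => (x - e k) * (b + 2 * c * x) -
    (a + b * x + c * x ^ 2) * (1 / 2 + (x - e k) *
      ∑ l ∈ Finset.univ.erase k, (fun _ => (1:ℂ)) l / (2 * (x - e l))) -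
    x ^ p * (n k / 2 + (x - e k) * ∑ l ∈ Finset.univ.erase k, n l / (2 * (x - e l))) +
    (x - e k) * (m 0 + m 1 * x) with hF
  have hFc : ContinuousAt F (e k) := by
    have h1 := hcont (fun _ => 1)
    have h2 := hcont n
    have h3 : ContinuousAt (fun x : ℂ => x - e k) (e k) := by fun_prop
    have h4 : ContinuousAt (fun x : ℂ => b + 2 * c * x) (e k) := by fun_prop
    have h5 : ContinuousAt (fun x : ℂ => a + b * x + c * x ^ 2) (e k) := by fun_prop
    have h6 : ContinuousAt (fun x : ℂ => x ^ p) (e k) := by fun_prop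
    have h7 : ContinuousAt (fun x : ℂ => m 0 + m 1 * x) (e k) := by fun_prop
    exact (((h3.mul h4).sub (h5.mul (continuousAt_const.add (h3.mul h1)))).sub
      (h6.mul (continuousAt_const.add (h3.mul h2)))).add (h3.mul h7)
  have hF0 : ∀ x ∈ Dn e, F x = 0 := by
    intro x hx
    have h1 := sum_split e (fun _ => 1) k (Dn_ne hx k)
    have h2 := sum_split e n k (Dn_ne hx k)
    rw [hF]
    simp only at h1 ⊢
    rw [← h1, ← h2]
    linear_combination (x - e k) * hode x hx
  have hmem := closure_Dn he.rsep k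
  rw [mem_closure_iff_nhdsWithin_neBot] at hmem
  have h1 : Tendsto F (𝓝[Dn e] (e k)) (𝓝 (F (e k))) := hFc.tendsto.mono_left nhdsWithin_le_nhds
  have h2 : Tendsto F (𝓝[Dn e] (e k)) (𝓝 0) := by
    refine tendsto_const_nhds.congr' ?_
    filter_upwards [self_mem_nhdsWithin] with x hx
    exact (hF0 x hx).symm
  have h3 := tendsto_nhds_unique h1 h2
  rw [hF] at h3
  simp only [sub_self, zero_mul, add_zero, zero_sub] at h3
  linear_combination (-2) * h3

theorem tor : S_TOR := by
  intro e he n m h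
  obtain ⟨a0, b0, c0, h1⟩ := main he n (m 0) (p := 0) (by norm_num) (h 0)
  obtain ⟨a1, b1, c1, h2⟩ := main he n (m 1) (p := 1) (by norm_num) (h 1)
  have h3 : ∀ k, a1 + (b1 - a0) * e k + (c1 - b0) * e k ^ 2 - c0 * e k ^ 3 = 0 := by
    intro k
    linear_combination h2 k - e k * h1 k
  have h4 : c0 = 0 := by
    set P : Polynomial ℂ := Polynomial.C a1 + Polynomial.C (b1 - a0) * Polynomial.X +
      Polynomial.C (c1 - b0) * Polynomial.X ^ 2 - Polynomial.C c0 * Polynomial.X ^ 3 with hP
    have hdeg : P.natDegree < Fintype.card (Fin 5) := by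
      rw [Fintype.card_fin]
      have : P.natDegree ≤ 3 := by rw [hP]; compute_degree
      omega
    have h5 : P = 0 := by
      refine Polynomial.eq_zero_of_natDegree_lt_card_of_eval_eq_zero P he.inj (fun k => ?_) hdeg
      rw [hP]
      simp only [Polynomial.eval_sub, Polynomial.eval_add, Polynomial.eval_C, Polynomial.eval_mul,
        Polynomial.eval_X, Polynomial.eval_pow]
      exact h3 k
    have h6 : P.coeff 3 = -c0 := by
      rw [hP]
      simp only [Polynomial.coeff_sub, Polynomial.coeff_add, Polynomial.coeff_C_mul,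
        Polynomial.coeff_X_pow, Polynomial.coeff_X, Polynomial.coeff_C]
      norm_num
    rw [h5, Polynomial.coeff_zero] at h6
    linear_combination h6
  refine ⟨a0, b0, fun k => ?_⟩
  have := h1 k
  rw [h4] at this
  linear_combination this

end Pool.Agent.H988.TOR
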