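import Pool.Agent.H840.AS.Stm
set_option autoImplicit false

/-!
# Bounds for the functions in the infinitesimal Torelli theorem
-/

open Complex Filter Topology MeasureTheory Set Metric

namespace Pool.Agent.H988.TOR

open Pool.Agent.H840.AS

/-- The points `e k` are bounded, with separated real parts. -/
structure Spr (e : Fin 5 → ℂ) : Prop where
  re : ∀ k l, k ≠ l → (1 / 2 : ℝ) ≤ |(e k).re - (e l).re|
  bd : ∀ k, ‖e k‖ ≤ 3

theorem Spr.neg {e : Fin 5 → ℂ} (h : Spr e) : Spr (-e) where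
  re k l hkl := by
    have := h.re k l hkl
    rw [← abs_neg] at this
    simpa [sub_eq_add_neg, add_comm] using this
  bd k := by simpa using h.bd k

theorem Spr.sep {e : Fin 5 → ℂ} (h : Spr e) : Sep e where
  sep k l hkl := by
    refine (h.re k l hkl).trans ?_
    rw [← sub_re]
    exact abs_re_le_norm _
  bd := h.bd

theorem _root_.Pool.Agent.H840.AS.Near.spr {e : Fin 5 → ℂ} (h : Near e) : Spr e where
  re k l hkl := by
    rcases lt_or_gt_of_ne hkl with h1 | h1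
    · have := h.gap h1
      rw [abs_of_neg (by linarith)]; linarith
    · have := h.gap h1
      rw [abs_of_pos (by linarith)]; linarith
  bd := h.sep.bd

/-- The sum of the `-3/2` powers of the distances. -/
noncomputable def B (e : Fin 5 → ℂ) (x : ℂ) : ℝ := ∑ k, ‖x - e k‖ ^ (-(3/2) : ℝ)

theorem rp_eq {u : ℝ} (hu : 0 < u) : u ^ (-(3/2) : ℝ) = (Real.sqrt u * u)⁻¹ := by
  rw [Real.rpow_neg hu.le]
  congr 1
  rw [Real.sqrt_eq_rpow]
  nth_rewrite 3 [← Real.rpow_one u]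
  rw [← Real.rpow_add hu]; norm_num

theorem kap_le {u : ℝ} (hu : 0 < u) : kap u ≤ u ^ (-(3/2) : ℝ) := by
  rw [rp_eq hu]
  unfold kap
  have := Real.sqrt_pos.2 hu
  gcongr
  linarith

theorem kap_mul_le {u v : ℝ} (hu : 0 < u) (hv : 0 < v) :
    kap u * v⁻¹ ≤ u ^ (-(3/2) : ℝ) + v ^ (-(3/2) : ℝ) := by
  have h1 : 0 ≤ u ^ (-(3/2) : ℝ) := Real.rpow_nonneg hu.le _
  have h2 : 0 ≤ v ^ (-(3/2) : ℝ) := Real.rpow_nonneg hv.le _
  have h3 : kap u ≤ (Real.sqrt u)⁻¹ := by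
    unfold kap
    have := Real.sqrt_pos.2 hu
    gcongr
    nlinarith
  have hsu := Real.sqrt_pos.2 hu
  have hsv := Real.sqrt_pos.2 hv
  rcases le_total u v with h | h
  · refine le_trans ?_ (le_add_of_nonneg_right h2)
    rw [rp_eq hu, mul_inv]
    gcongr
  · refine le_trans ?_ (le_add_of_nonneg_left h1)
    rw [rp_eq hv, mul_inv]
    have h4 : (Real.sqrt u)⁻¹ ≤ (Real.sqrt v)⁻¹ := by gcongr
    gcongr
    exact h3.trans h4

theorem hT_bound {e : Fin 5 → ℂ} (he : Sep e) (n : Fin 5 → ℂ) (m : Fin 2 → ℂ) {p : ℕ}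
    (hp : p ≤ 1) : ∃ C : ℝ, 0 ≤ C ∧ ∀ x, (∀ k, x - e k ≠ 0) → ‖hT e n m p x‖ ≤ C * B e x := by
  refine ⟨256 * (10 * (∑ k, ‖n k‖) + (‖m 0‖ + ‖m 1‖)), by positivity, fun x hx => ?_⟩
  have hu : ∀ k, 0 < ‖x - e k‖ := fun k => norm_pos_iff.2 (hx k)
  have h1 : ‖∑ k, n k / (2 * (x - e k))‖ ≤ (∑ k, ‖n k‖) * ∑ l, ‖x - e l‖⁻¹ := by
    refine (norm_sum_le _ _).trans ?_
    rw [Finset.sum_mul]
    refine Finset.sum_le_sum fun k _ => ?_
    rw [norm_div, norm_mul, Complex.norm_ofNat, div_eq_mul_inv]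
    have h2 : (2 * ‖x - e k‖)⁻¹ ≤ ‖x - e k‖⁻¹ := by
      have := hu k
      gcongr
      linarith
    have h3 : ‖x - e k‖⁻¹ ≤ ∑ l, ‖x - e l‖⁻¹ :=
      Finset.single_le_sum (f := fun l => ‖x - e l‖⁻¹) (fun l _ => by positivity)
        (Finset.mem_univ k)
    exact mul_le_mul_of_nonneg_left (h2.trans h3) (norm_nonneg _)
  have h2 : (1 + ‖x‖) * ‖(rt e x)⁻¹‖ ≤ 256 * Bnd e x := by
    have := near_bound he x
    rw [norm_inv, norm_rt, ← Finset.prod_inv_distrib]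
    exact this
  have h3 : Bnd e x ≤ B e x := Finset.sum_le_sum fun k _ => kap_le (hu k)
  have h4 : Bnd e x * ∑ l, ‖x - e l‖⁻¹ ≤ 10 * B e x := by
    unfold Bnd
    rw [Finset.sum_mul_sum]
    calc ∑ k, ∑ l, kap ‖x - e k‖ * ‖x - e l‖⁻¹ ≤
        ∑ k, ∑ l, (‖x - e k‖ ^ (-(3/2) : ℝ) + ‖x - e l‖ ^ (-(3/2) : ℝ)) :=
          Finset.sum_le_sum fun k _ => Finset.sum_le_sum fun l _ => kap_mul_le (hu k) (hu l)
      _ = 10 * B e x := by
          simp only [Finset.sum_add_distrib, Finset.sum_const, Finset.card_univ, Fintype.card_fin,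
            nsmul_eq_mul, B, Finset.mul_sum]
          rw [← Finset.sum_add_distrib]
          refine Finset.sum_congr rfl fun k _ => ?_
          push_cast; ring
  have h5 : ‖x ^ p‖ ≤ 1 + ‖x‖ := by
    rw [norm_pow]
    interval_cases p <;> simp
  have h6 : ‖m 0 + m 1 * x‖ ≤ (‖m 0‖ + ‖m 1‖) * (1 + ‖x‖) := by
    calc ‖m 0 + m 1 * x‖ ≤ ‖m 0‖ + ‖m 1‖ * ‖x‖ := by
          refine (norm_add_le _ _).trans ?_
          rw [norm_mul]
      _ ≤ _ := by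
          have := norm_nonneg (m 0)
          have := norm_nonneg (m 1)
          have := norm_nonneg x
          nlinarith
  have hN : 0 ≤ ∑ k, ‖n k‖ := Finset.sum_nonneg fun k _ => norm_nonneg _
  have hr := norm_nonneg ((rt e x)⁻¹)
  have hB0 := Bnd_nonneg e x
  calc ‖hT e n m p x‖ ≤ ‖x ^ p‖ * ‖∑ k, n k / (2 * (x - e k))‖ * ‖(rt e x)⁻¹‖ +
        ‖m 0 + m 1 * x‖ * ‖(rt e x)⁻¹‖ := by
        unfold hT
        refine (norm_sub_le _ _).trans ?_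
        simp only [norm_mul]
        exact le_refl _
    _ ≤ (1 + ‖x‖) * ((∑ k, ‖n k‖) * ∑ l, ‖x - e l‖⁻¹) * ‖(rt e x)⁻¹‖ +
        ((‖m 0‖ + ‖m 1‖) * (1 + ‖x‖)) * ‖(rt e x)⁻¹‖ := by
        gcongr
    _ = ((1 + ‖x‖) * ‖(rt e x)⁻¹‖) * ((∑ k, ‖n k‖) * ∑ l, ‖x - e l‖⁻¹) +
        (‖m 0‖ + ‖m 1‖) * ((1 + ‖x‖) * ‖(rt e x)⁻¹‖) := by ring
    _ ≤ (256 * Bnd e x) * ((∑ k, ‖n k‖) * ∑ l, ‖x - e l‖⁻¹) +
        (‖m 0‖ + ‖m 1‖) * (256 * Bnd e x) := by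
        have : 0 ≤ ∑ l, ‖x - e l‖⁻¹ := Finset.sum_nonneg fun k _ => by positivity
        gcongr
    _ = 256 * ((∑ k, ‖n k‖) * (Bnd e x * ∑ l, ‖x - e l‖⁻¹) + (‖m 0‖ + ‖m 1‖) * Bnd e x) := by ring
    _ ≤ 256 * ((∑ k, ‖n k‖) * (10 * B e x) + (‖m 0‖ + ‖m 1‖) * B e x) := by gcongr
    _ = _ := by ring

theorem hT_diff (e n : Fin 5 → ℂ) (m : Fin 2 → ℂ) (p : ℕ) :
    DifferentiableOn ℂ (hT e n m p) (Dn e) := by
  intro x hx
  have h1 : DifferentiableAt ℂ (fun x => (rt e x)⁻¹) x :=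
    (hasDerivAt_rt hx).differentiableAt.inv (rt_ne (Dn_ne hx))
  have h2 : DifferentiableAt ℂ (fun x => ∑ k, n k / (2 * (x - e k))) x := by
    refine DifferentiableAt.fun_sum fun k _ => ?_
    refine DifferentiableAt.div (by fun_prop) (by fun_prop) ?_
    exact mul_ne_zero two_ne_zero (Dn_ne hx k)
  have h3 : DifferentiableAt ℂ (fun x : ℂ => x ^ p) x := by fun_prop
  have h4 : DifferentiableAt ℂ (fun x : ℂ => m 0 + m 1 * x) x := by fun_prop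
  exact (((h3.mul h2).mul h1).sub (h4.mul h1)).differentiableWithinAt

/-- The class of functions which is considered. -/
structure Kl (e : Fin 5 → ℂ) (h : ℂ → ℂ) : Prop where
  diff : DifferentiableOn ℂ h (Dn e)
  bd : ∃ C : ℝ, 0 ≤ C ∧ ∀ x, (∀ k, x - e k ≠ 0) → ‖h x‖ ≤ C * B e x

theorem kl_hT {e : Fin 5 → ℂ} (he : Sep e) (n : Fin 5 → ℂ) (m : Fin 2 → ℂ) {p : ℕ}
    (hp : p ≤ 1) : Kl e (hT e n m p) := ⟨hT_diff e n m p, hT_bound he n m hp⟩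

theorem B_decay {e : Fin 5 → ℂ} (h : Sep e) {x : ℂ} (hx : 6 ≤ ‖x‖) :
    B e x ≤ 20 * ‖x‖ ^ (-(3/2) : ℝ) := by
  have hx0 : 0 < ‖x‖ := by linarith
  have h1 : ∀ k, ‖x - e k‖ ^ (-(3/2) : ℝ) ≤ 4 * ‖x‖ ^ (-(3/2) : ℝ) := by
    intro k
    have h2 : ‖x‖ / 2 ≤ ‖x - e k‖ := by
      have h4 : ‖x‖ ≤ ‖x - e k‖ + ‖e k‖ := by
        calc ‖x‖ = ‖(x - e k) + e k‖ := by congr 1; ring
          _ ≤ _ := norm_add_le _ _
      have := h.bd k
      linarith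
    refine (Real.rpow_le_rpow_of_nonpos (by positivity) h2 (by norm_num)).trans ?_
    rw [rp_eq (by positivity), rp_eq hx0]
    have h5 : Real.sqrt ‖x‖ / 2 ≤ Real.sqrt (‖x‖ / 2) := by
      apply Real.le_sqrt_of_sq_le
      rw [div_pow, Real.sq_sqrt hx0.le]; linarith
    have h6 : 0 < Real.sqrt ‖x‖ := Real.sqrt_pos.2 hx0
    calc (Real.sqrt (‖x‖ / 2) * (‖x‖ / 2))⁻¹ ≤ (Real.sqrt ‖x‖ / 2 * (‖x‖ / 2))⁻¹ := by
          gcongr
      _ = 4 * (Real.sqrt ‖x‖ * ‖x‖)⁻¹ := by field_simp; norm_num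
  unfold B
  calc ∑ k, ‖x - e k‖ ^ (-(3/2) : ℝ) ≤ ∑ k : Fin 5, 4 * ‖x‖ ^ (-(3/2) : ℝ) :=
        Finset.sum_le_sum fun k _ => h1 k
    _ = 20 * ‖x‖ ^ (-(3/2) : ℝ) := by simp; ring

theorem Kl.decay {e : Fin 5 → ℂ} (he : Sep e) {h : ℂ → ℂ} (hg : Kl e h) :
    ∃ C R : ℝ, ∀ x ∈ Dn e, R ≤ ‖x‖ → ‖h x‖ ≤ C * ‖x‖ ^ (-(3/2) : ℝ) := by
  obtain ⟨C, hC, h1⟩ := hg.bd
  refine ⟨C * 20, 6, fun x hx hR => (h1 x (Dn_ne hx)).trans ?_⟩
  rw [mul_assoc]
  exact mul_le_mul_of_nonneg_left (B_decay he hR) hC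

theorem Kl.hasDerivAt {e : Fin 5 → ℂ} (he : Sep e) {h : ℂ → ℂ} (hg : Kl e h) {x : ℂ}
    (hx : x ∈ Dn e) : HasDerivAt (Up h) (h x) x :=
  up_hasDerivAt (isOpen_Dn e) Dn_up hg.diff (hg.decay he) hx

theorem Kl.integrable {e : Fin 5 → ℂ} (he : Sep e) {h : ℂ → ℂ} (hg : Kl e h) {x : ℂ}
    (hx : x ∈ Dn e) : IntegrableOn (fun t : ℝ => I * h (x + t * I)) (Ioi 0) :=
  up_integrable (isOpen_Dn e) Dn_up hg.diff.continuousOn (hg.decay he) hx

theorem integral_pow {δ : ℝ} (hδ : 0 < δ) :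
    ∫ t in Ioi (0:ℝ), (t + δ) ^ (-(3/2) : ℝ) = 2 * (Real.sqrt δ)⁻¹ := by
  have hd : ∀ x ∈ Ici (0:ℝ), HasDerivAt (fun t => (t + δ) ^ (-(1/2) : ℝ) * (-2))
      ((x + δ) ^ (-(3/2) : ℝ)) x := by
    intro x hx
    have hx0 : (0:ℝ) ≤ x := hx
    have h1 : HasDerivAt (fun t : ℝ => t + δ) 1 x := (hasDerivAt_id' x).add_const δ
    have h2 := (h1.rpow_const (p := -(1/2)) (Or.inl (by linarith : x + δ ≠ 0))).mul_const (-2)
    have h3 : (x + δ) ^ (-(3/2) : ℝ) = 1 * (-(1/2)) * (x + δ) ^ (-(1/2) - 1 : ℝ) * (-2) := by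
      norm_num
      ring
    rw [h3]
    exact h2
  have ht : Tendsto (fun t : ℝ => (t + δ) ^ (-(1/2) : ℝ) * (-2)) atTop (𝓝 (0 * (-2))) := by
    apply Tendsto.mul_const
    exact (tendsto_rpow_neg_atTop (by norm_num : (0:ℝ) < 1/2)).comp
      (tendsto_atTop_add_const_right atTop δ tendsto_id)
  have h4 := integral_Ioi_of_hasDerivAt_of_tendsto' hd
    (integrableOn_add_rpow_Ioi_of_lt (by norm_num) (by linarith)) ht
  rw [h4, zero_add, Real.rpow_neg hδ.le, ← Real.sqrt_eq_rpow]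
  ring

/-- The bound for the primitive. -/
theorem up_le {e : Fin 5 → ℂ} {h : ℂ → ℂ} {C : ℝ} (hC : 0 ≤ C)
    (hb : ∀ x, (∀ k, x - e k ≠ 0) → ‖h x‖ ≤ C * B e x) {c δ : ℝ} (hc : 0 < c) (hδ : 0 < δ)
    {x : ℂ} (hx : ∀ t : ℝ, 0 < t → ∀ k, c * (t + δ) ≤ ‖x + t * I - e k‖) :
    ‖Up h x‖ ≤ C * (5 * c ^ (-(3/2) : ℝ)) * (2 * (Real.sqrt δ)⁻¹) := by
  unfold Up
  rw [norm_neg, ← integral_pow hδ, ← integral_const_mul]
  apply norm_integral_le_of_norm_le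
  · exact (integrableOn_add_rpow_Ioi_of_lt (by norm_num) (by linarith)).const_mul _
  · filter_upwards [self_mem_ae_restrict measurableSet_Ioi] with t ht
    have ht0 : 0 < t := ht
    have h1 : ∀ k, x + t * I - e k ≠ 0 := by
      intro k h2
      have h3 := hx t ht0 k
      rw [h2, norm_zero] at h3
      have : 0 < c * (t + δ) := by positivity
      linarith
    rw [norm_mul, norm_I, one_mul]
    refine (hb _ h1).trans ?_
    rw [mul_assoc]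
    refine mul_le_mul_of_nonneg_left ?_ hC
    unfold B
    have h4 : ∀ k, ‖x + t * I - e k‖ ^ (-(3/2) : ℝ) ≤
        c ^ (-(3/2) : ℝ) * (t + δ) ^ (-(3/2) : ℝ) := by
      intro k
      rw [← Real.mul_rpow hc.le (by positivity)]
      exact Real.rpow_le_rpow_of_nonpos (by positivity) (hx t ht0 k) (by norm_num)
    calc ∑ k, ‖x + t * I - e k‖ ^ (-(3/2) : ℝ) ≤
        ∑ k : Fin 5, c ^ (-(3/2) : ℝ) * (t + δ) ^ (-(3/2) : ℝ) :=
          Finset.sum_le_sum fun k _ => h4 k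
      _ = _ := by simp; ring

theorem norm_up {a : ℂ} (ha : 0 ≤ a.im) {t : ℝ} (ht : 0 ≤ t) :
    (t + ‖a‖) / 2 ≤ ‖a + t * I‖ ∧ ‖a‖ ≤ ‖a + t * I‖ := by
  have h1 : ‖a‖ ≤ ‖a + t * I‖ := by
    rw [← sq_le_sq₀ (norm_nonneg _) (norm_nonneg _), Complex.sq_norm, Complex.sq_norm,
      normSq_apply, normSq_apply]
    have e1 : (a + t * I).re = a.re := by simp
    have e2 : (a + t * I).im = a.im + t := by simp
    rw [e1, e2]
    nlinarith
  have h2 : t ≤ ‖a + t * I‖ := by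
    have e2 : (a + t * I).im = a.im + t := by simp
    have h3 := abs_im_le_norm (a + t * I)
    rw [e2, abs_of_nonneg (by positivity)] at h3
    linarith
  exact ⟨by linarith, h1⟩

/-- The bound at infinity. -/
theorem up_inf {e : Fin 5 → ℂ} (he : Sep e) {h : ℂ → ℂ} (hg : Kl e h) :
    ∃ C : ℝ, 0 ≤ C ∧ ∀ x : ℂ, 8 ≤ ‖x‖ → 0 ≤ x.im → ‖Up h x‖ ≤ C * (Real.sqrt ‖x‖)⁻¹ := by
  obtain ⟨C, hC, hb⟩ := hg.bd
  refine ⟨C * (5 * (5/16 : ℝ) ^ (-(3/2) : ℝ)) * 2, by positivity, fun x hx hi => ?_⟩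
  have h1 := up_le hC hb (c := 5/16) (δ := ‖x‖) (by norm_num) (by linarith) (x := x) ?_
  · calc ‖Up h x‖ ≤ _ := h1
      _ = _ := by ring
  · intro t ht k
    obtain ⟨h2, h3⟩ := norm_up hi ht.le
    have h4 : ‖x + t * I‖ ≤ ‖x + t * I - e k‖ + ‖e k‖ := by
      calc ‖x + t * I‖ = ‖(x + t * I - e k) + e k‖ := by congr 1; ring
        _ ≤ _ := norm_add_le _ _
    have := he.bd k
    linarith

/-- The bound near `e k`. -/
theorem up_near {e : Fin 5 → ℂ} (he : Spr e) {h : ℂ → ℂ} (hg : Kl e h) :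
    ∃ C : ℝ, 0 ≤ C ∧ ∀ (k : Fin 5) (x : ℂ), x ≠ e k → ‖x - e k‖ ≤ 1 / 8 → 0 ≤ (x - e k).im →
      ‖Up h x‖ ≤ C * (Real.sqrt ‖x - e k‖)⁻¹ := by
  obtain ⟨C, hC, hb⟩ := hg.bd
  refine ⟨C * (5 * (1/40 : ℝ) ^ (-(3/2) : ℝ)) * 2, by positivity, fun k x hxk hx hi => ?_⟩
  have hpos : 0 < ‖x - e k‖ := norm_pos_iff.2 (sub_ne_zero.2 hxk)
  have h1 := up_le hC hb (c := 1/40) (δ := ‖x - e k‖) (by norm_num) hpos (x := x) ?_
  · calc ‖Up h x‖ ≤ _ := h1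
      _ = _ := by ring
  · intro t ht l
    by_cases hl : l = k
    · subst hl
      obtain ⟨h2, h3⟩ := norm_up hi ht.le
      have h4 : x + t * I - e l = x - e l + t * I := by ring
      rw [h4]
      linarith
    · have h2 : (3/8 : ℝ) ≤ ‖x + t * I - e l‖ := by
        have h3 := abs_re_le_norm (x + t * I - e l)
        have h4 : (x + t * I - e l).re = (x - e k).re + ((e k).re - (e l).re) := by
          simp
        have h5 := he.re k l (Ne.symm hl)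
        have h6 := (abs_re_le_norm (x - e k)).trans hx
        rw [h4] at h3
        have h7 : |(e k).re - (e l).re| ≤ |(x - e k).re + ((e k).re - (e l).re)| +
            |(x - e k).re| := by
          have := abs_sub ((x - e k).re + ((e k).re - (e l).re)) ((x - e k).re)
          rwa [add_sub_cancel_left] at this
        linarith
      have h3 : t - 7 ≤ ‖x + t * I - e l‖ := by
        have h4 : ‖(t:ℂ) * I‖ ≤ ‖x + t * I - e l‖ + ‖e l‖ + (‖e k‖ + ‖x - e k‖) := by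
          calc ‖(t:ℂ) * I‖ = ‖(x + t * I - e l) + e l - (e k + (x - e k))‖ := by congr 1; ring
            _ ≤ ‖(x + t * I - e l) + e l‖ + ‖e k + (x - e k)‖ := norm_sub_le _ _
            _ ≤ _ := add_le_add (norm_add_le _ _) (norm_add_le _ _)
        have h5 : ‖(t:ℂ) * I‖ = t := by
          rw [norm_mul, norm_I, mul_one, Complex.norm_real, Real.norm_eq_abs, abs_of_pos ht]
        have := he.bd l
        have := he.bd k
        linarith
      rcases le_total t 14 with h4 | h4 <;> linarith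

end Pool.Agent.H988.TOR
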