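import Pool.Agent.H988.TorA
set_option autoImplicit false

/-!
# The two primitives agree up to sign on the strips
-/

open Complex Filter Topology MeasureTheory Set Metric

namespace Pool.Agent.H988.TOR

open Pool.Agent.H840.AS

/-- Two functions on the plane slit downwards and on the plane slit upwards. -/
structure Pr (e : Fin 5 → ℂ) (h h' : ℂ → ℂ) : Prop where
  g : Kl e h
  g' : Kl (-e) (fun y => h' (-y))
  st : ∀ j ≤ 5, ∀ x ∈ Str e j, h x = sg j * h' x

theorem Pr.down_deriv {e : Fin 5 → ℂ} (he : Sep e) {h h' : ℂ → ℂ} (p : Pr e h h') {x : ℂ}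
    (hx : -x ∈ Dn (-e)) : HasDerivAt (Down h') (h' x) x := by
  have h1 := p.g'.hasDerivAt he.neg hx
  have h2 := (h1.comp x (hasDerivAt_neg x)).neg
  have h3 : Down h' = -(Up (fun y => h' (-y)) ∘ Neg.neg) := by
    ext z; rfl
  rw [h3]
  have h4 : h' x = -((fun y => h' (-y)) (-x) * -1) := by simp
  rw [h4]
  exact h2

theorem Pr.const {e : Fin 5 → ℂ} (he : Sep e) {h h' : ℂ → ℂ} (p : Pr e h h') {j : ℕ}
    (hj : j ≤ 5) {x y : ℂ} (hx : x ∈ Str e j) (hy : y ∈ Str e j) :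
    Up h x - sg j * Down h' x = Up h y - sg j * Down h' y := by
  have h1 : ∀ z ∈ Str e j, HasDerivAt (fun x => Up h x - sg j * Down h' x) 0 z := by
    intro z hz
    have h2 := (p.g.hasDerivAt he (Str_sub hz)).sub
      ((p.down_deriv he (Str_sub' hz)).const_mul (sg j))
    rw [p.st j hj z hz, sub_self] at h2
    exact h2
  have h3 := (isOpen_Str e j).is_const_of_deriv_eq_zero (f := fun x => Up h x - sg j * Down h' x)
    (convex_Str e j).isPreconnected (fun z hz => (h1 z hz).differentiableAt.differentiableWithinAt)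
    (fun z hz => (h1 z hz).deriv) hx hy
  exact h3

theorem integrableOn_Iic_of_neg {f : ℝ → ℂ} (h : IntegrableOn (fun t => f (-t)) (Ioi 0)) :
    IntegrableOn f (Iic 0) := by
  rw [integrableOn_Iic_iff_integrableOn_Iio]
  have h1 := (Measure.measurePreserving_neg (volume : Measure ℝ)).integrableOn_comp_preimage
    (MeasurableEquiv.neg ℝ).measurableEmbedding (f := fun t => f (-t)) (s := Ioi 0)
  have h2 := h1.2 h
  have h3 : (fun x : ℝ => -x) ⁻¹' Ioi 0 = Iio 0 := by ext x; simp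
  have h4 : (Neg.neg : ℝ → ℝ) ⁻¹' Ioi 0 = Iio 0 := h3
  rw [h4] at h2
  have h5 : (fun t => f (-t)) ∘ Neg.neg = f := by ext x; simp
  rwa [h5] at h2

theorem Pr.Ln_eq {e : Fin 5 → ℂ} (he : Sep e) {h h' : ℂ → ℂ} (p : Pr e h h') {j : ℕ}
    (hj : j ≤ 5) {x : ℂ} (hx : x ∈ Str e j) :
    Up h x - sg j * Down h' x = -Ln h x := by
  have h5 : ∀ t : ℝ, I * h (x + ((-t : ℝ) : ℂ) * I) = sg j * (I * h' (x - t * I)) := by
    intro t
    have h4 := p.st j hj _ (Str_vert hx (-t))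
    have h5 : x + ((-t : ℝ) : ℂ) * I = x - t * I := by push_cast; ring
    rw [h5] at h4 ⊢
    rw [h4]; ring
  have hi1 : IntegrableOn (fun t : ℝ => I * h (x + t * I)) (Ioi 0) :=
    p.g.integrable he (Str_sub hx)
  have hi2 : IntegrableOn (fun t : ℝ => I * h (x + t * I)) (Iic 0) := by
    apply integrableOn_Iic_of_neg
    have h6 := p.g'.integrable he.neg (Str_sub' hx)
    have h7 : IntegrableOn (fun t : ℝ => sg j * (I * h' (-(-x + t * I)))) (Ioi 0) :=
      Integrable.const_mul h6 (sg j)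
    refine h7.congr_fun (fun t _ => ?_) measurableSet_Ioi
    simp only
    rw [h5 t]
    congr 3
    ring
  have h1 : Ln h x = (∫ t in Iic (0:ℝ), I * h (x + t * I)) +
      ∫ t in Ioi (0:ℝ), I * h (x + t * I) := by
    unfold Ln
    rw [← setIntegral_union (Iic_disjoint_Ioi le_rfl) measurableSet_Ioi hi2 hi1, Iic_union_Ioi,
      setIntegral_univ]
  have h2 : (∫ t in Iic (0:ℝ), I * h (x + t * I)) = sg j * Down h' x := by
    have h3 := integral_comp_neg_Ioi (0:ℝ) (fun t : ℝ => I * h (x + t * I))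
    rw [neg_zero] at h3
    rw [← h3, Down_eq, ← integral_const_mul]
    exact setIntegral_congr_fun measurableSet_Ioi fun t _ => h5 t
  rw [h1, h2]
  unfold Up
  ring

/-- Zero on the first and the last strip. -/
theorem Pr.zero_ends {e : Fin 5 → ℂ} (he : Sep e) {h h' : ℂ → ℂ} (p : Pr e h h') {j : ℕ}
    (hj : j ≤ 5) {s : ℝ} (hs : |s| = 1) (hS : ∀ a : ℝ, 8 ≤ a → ((s * a : ℝ) : ℂ) ∈ Str e j)
    {x : ℂ} (hx : x ∈ Str e j) : Up h x - sg j * Down h' x = 0 := by
  obtain ⟨C, hC, h1⟩ := up_inf he p.g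
  obtain ⟨C', hC', h2⟩ := up_inf he.neg p.g'
  have hsg : ‖sg j‖ = 1 := by
    unfold sg
    rw [norm_pow]; simp
  have h3 : ∀ a : ℝ, 8 ≤ a → ‖Up h x - sg j * Down h' x‖ ≤ (C + C') * (Real.sqrt a)⁻¹ := by
    intro a ha
    rw [p.const he hj hx (hS a ha)]
    have h4 : ‖((s * a : ℝ) : ℂ)‖ = a := by
      rw [Complex.norm_real, Real.norm_eq_abs, abs_mul, hs, one_mul, abs_of_nonneg (by linarith)]
    have h5 := h1 ((s * a : ℝ) : ℂ) (by rw [h4]; exact ha) (by simp)
    have h6 := h2 (-((s * a : ℝ) : ℂ)) (by rw [norm_neg, h4]; exact ha) (by simp)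
    rw [norm_neg] at h6
    rw [h4] at h5 h6
    refine (norm_sub_le _ _).trans ?_
    rw [norm_mul, hsg, one_mul, add_mul]
    unfold Down
    rw [norm_neg]
    exact add_le_add h5 h6
  have h4 : Tendsto (fun a : ℝ => (C + C') * (Real.sqrt a)⁻¹) atTop (𝓝 ((C + C') * 0)) :=
    (tendsto_inv_atTop_zero.comp Real.tendsto_sqrt_atTop).const_mul _
  rw [mul_zero] at h4
  have h5 : ‖Up h x - sg j * Down h' x‖ ≤ 0 := by
    refine ge_of_tendsto h4 ?_
    filter_upwards [eventually_ge_atTop 8] with a ha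
    exact h3 a ha
  exact norm_le_zero_iff.1 h5

/-- The hypothesis of the infinitesimal Torelli theorem. -/
theorem Pr.zero {e : Fin 5 → ℂ} (he : Near e) {h h' : ℂ → ℂ} (p : Pr e h h')
    (h0 : ∀ j : ℕ, 1 ≤ j → j ≤ 4 → Ln h (ln j) = 0) {j : ℕ} (hj : j ≤ 5)
    {x : ℂ} (hx : x ∈ Str e j) : Up h x = sg j * Down h' x := by
  apply sub_eq_zero.1
  rcases Nat.eq_zero_or_pos j with h1 | h1
  · subst h1
    refine p.zero_ends he.sep hj (s := -1) (by simp) (fun a ha k => ?_) hx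
    have := abs_le.1 ((abs_re_le_norm (e k)).trans (he.sep.bd k))
    rw [ofReal_re]
    exact ⟨fun h => absurd h (by omega), fun _ => by linarith [this.1]⟩
  rcases Nat.lt_or_ge j 5 with h2 | h2
  · rw [p.const he.sep hj hx (he.ln_mem j), p.Ln_eq he.sep hj (he.ln_mem j), h0 j h1 (by omega),
      neg_zero]
  · have h3 : j = 5 := by omega
    subst h3
    refine p.zero_ends he.sep hj (s := 1) (by simp) (fun a ha k => ?_) hx
    have := abs_le.1 ((abs_re_le_norm (e k)).trans (he.sep.bd k))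
    rw [ofReal_re]
    exact ⟨fun _ => by linarith [this.2], fun h => absurd k.2 (by omega)⟩

/-- The analogue of `hT` on the other slit plane. -/
noncomputable def hT' (e n : Fin 5 → ℂ) (m : Fin 2 → ℂ) (p : ℕ) (x : ℂ) : ℂ :=
  x ^ p * (∑ k, n k / (2 * (x - e k))) * (rt' e x)⁻¹ - (m 0 + m 1 * x) * (rt' e x)⁻¹

theorem hT'_neg (e n : Fin 5 → ℂ) (m : Fin 2 → ℂ) (p : ℕ) (y : ℂ) :
    hT' e n m p (-y) = hT (-e) (fun k => -((-1) ^ p * I) * n k) ![I * m 0, -I * m 1] p y := by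
  unfold hT' hT rt'
  rw [neg_neg, mul_inv, inv_neg, inv_I, neg_neg]
  rw [neg_pow]
  have h1 : ∑ k, -((-1) ^ p * I) * n k / (2 * (y - (-e) k)) =
      ((-1) ^ p * I) * ∑ k, n k / (2 * (-y - e k)) := by
    rw [Finset.mul_sum]
    refine Finset.sum_congr rfl fun k _ => ?_
    have h2 : 2 * (y - (-e) k) = -(2 * (-y - e k)) := by
      simp only [Pi.neg_apply]; ring
    rw [h2, div_neg]
    ring
  rw [h1]
  simp only [Matrix.cons_val_zero, Matrix.cons_val_one]
  have h3 : ((-1:ℂ) ^ p) * ((-1:ℂ) ^ p) = 1 := by rw [← mul_pow]; simp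
  ring

theorem hT_Str {e : Fin 5 → ℂ} (n : Fin 5 → ℂ) (m : Fin 2 → ℂ) {j : ℕ} (hj : j ≤ 5) (p : ℕ)
    {x : ℂ} (hx : x ∈ Str e j) : hT e n m p x = sg j * hT' e n m p x := by
  unfold hT hT'
  rw [rt'_Str hj hx, mul_inv]
  have h1 : (sg j)⁻¹ = sg j := by
    have := sg_sq j
    have h2 : sg j ≠ 0 := by intro h; rw [h] at this; simp at this
    field_simp
    rw [pow_two]; exact this.symm
  rw [h1]
  linear_combination (-((x ^ p * ∑ k, n k / (2 * (x - e k))) * (rt e x)⁻¹) +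
    (m 0 + m 1 * x) * (rt e x)⁻¹) * sg_sq j

theorem pr_hT {e : Fin 5 → ℂ} (he : Sep e) (n : Fin 5 → ℂ) (m : Fin 2 → ℂ) {p : ℕ} (hp : p ≤ 1) :
    Pr e (hT e n m p) (hT' e n m p) where
  g := kl_hT he n m hp
  g' := by
    have h1 : (fun y => hT' e n m p (-y)) =
        hT (-e) (fun k => -((-1) ^ p * I) * n k) ![I * m 0, -I * m 1] p := by
      ext y; exact hT'_neg e n m p y
    rw [h1]
    exact kl_hT he.neg _ _ hp
  st j hj x hx := hT_Str n m hj p hx

end Pool.Agent.H988.TOR
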