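import Pool.Agent.H988.TorB
set_option autoImplicit false

/-!
# The entire functions in the proof of the infinitesimal Torelli theorem
-/

open Complex Filter Topology MeasureTheory Set Metric

namespace Pool.Agent.H988.TOR

open Pool.Agent.H840.AS

theorem cover {e : Fin 5 → ℂ} (he : Spr e) {x : ℂ} (hx : ∀ k, x - e k ≠ 0) :
    x ∈ Dn e ∨ -x ∈ Dn (-e) := by
  by_cases h : ∃ k, (x - e k).re = 0 ∧ (x - e k).im ≤ 0
  · obtain ⟨k, h1, h2⟩ := h
    right
    intro l
    by_cases hl : l = k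
    · subst hl
      right
      have h3 : (x - e l).im ≠ 0 := fun h3 => hx l (Complex.ext h1 h3)
      have h4 : (-x - (-e) l).im = -(x - e l).im := by simp; ring
      rw [h4]
      have := lt_of_le_of_ne h2 h3
      linarith
    · left
      have h4 : (-x - (-e) l).re = -(x - e k).re - ((e k).re - (e l).re) := by simp; ring
      rw [h4, h1]
      intro h5
      have h6 := he.re k l (Ne.symm hl)
      have h7 : (e k).re - (e l).re = 0 := by linarith
      rw [h7] at h6
      norm_num at h6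
  · left
    push Not at h
    intro k
    by_cases h1 : (x - e k).re = 0
    · right; exact h k h1
    · left; exact h1

theorem overlap {e : Fin 5 → ℂ} (he : Near e) {x : ℂ} (hx : x ∈ Dn e) (hx' : -x ∈ Dn (-e)) :
    ∃ j ≤ 5, x ∈ Str e j := by
  have h1 : ∀ k, x.re ≠ (e k).re := by
    intro k h
    rcases hx k with h2 | h2
    · apply h2; rw [sub_re, h, sub_self]
    rcases hx' k with h3 | h3
    · apply h3; simp [h]
    · simp at h2 h3; linarith
  have g0 := he.gap (k := 0) (l := 1) (by decide)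
  have g1 := he.gap (k := 1) (l := 2) (by decide)
  have g2 := he.gap (k := 2) (l := 3) (by decide)
  have g3 := he.gap (k := 3) (l := 4) (by decide)
  rcases lt_or_gt_of_ne (h1 0) with h | h
  · refine ⟨0, by norm_num, fun k => ⟨fun h2 => absurd h2 (by omega), fun _ => ?_⟩⟩
    fin_cases k <;> simp <;> linarith
  rcases lt_or_gt_of_ne (h1 1) with h' | h'
  · refine ⟨1, by norm_num, fun k => ?_⟩
    fin_cases k <;> simp <;> linarith
  rcases lt_or_gt_of_ne (h1 2) with h'' | h''
  · refine ⟨2, by norm_num, fun k => ?_⟩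
    fin_cases k <;> simp <;> linarith
  rcases lt_or_gt_of_ne (h1 3) with h3 | h3
  · refine ⟨3, by norm_num, fun k => ?_⟩
    fin_cases k <;> simp <;> linarith
  rcases lt_or_gt_of_ne (h1 4) with h4 | h4
  · refine ⟨4, by norm_num, fun k => ?_⟩
    fin_cases k <;> simp <;> linarith
  · refine ⟨5, by norm_num, fun k => ⟨fun _ => ?_, fun h2 => absurd k.2 (by omega)⟩⟩
    fin_cases k <;> simp <;> linarith

open Classical in
/-- The function which is to be extended. -/
noncomputable def EE (e : Fin 5 → ℂ) (h h' : ℂ → ℂ) (x : ℂ) : ℂ :=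
  if x ∈ Dn e then rt e x * Up h x else rt' e x * Down h' x

theorem EE_up {e : Fin 5 → ℂ} {h h' : ℂ → ℂ} {x : ℂ} (hx : x ∈ Dn e) :
    EE e h h' x = rt e x * Up h x := by
  unfold EE
  rw [if_pos hx]

theorem EE_down {e : Fin 5 → ℂ} (he : Near e) {h h' : ℂ → ℂ} (p : Pr e h h')
    (h0 : ∀ j : ℕ, 1 ≤ j → j ≤ 4 → Ln h (ln j) = 0) {x : ℂ} (hx : -x ∈ Dn (-e)) :
    EE e h h' x = rt' e x * Down h' x := by
  by_cases h1 : x ∈ Dn e
  · obtain ⟨j, hj, h2⟩ := overlap he h1 hx
    rw [EE_up h1, p.zero he h0 hj h2, rt'_Str hj h2]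
    ring
  · unfold EE
    rw [if_neg h1]

theorem isOpen_Dn' (e : Fin 5 → ℂ) : IsOpen {x : ℂ | -x ∈ Dn (-e)} :=
  (isOpen_Dn (-e)).preimage continuous_neg

theorem EE_diff {e : Fin 5 → ℂ} (he : Near e) {h h' : ℂ → ℂ} (p : Pr e h h')
    (h0 : ∀ j : ℕ, 1 ≤ j → j ≤ 4 → Ln h (ln j) = 0) {x : ℂ} (hx : ∀ k, x - e k ≠ 0) :
    DifferentiableAt ℂ (EE e h h') x := by
  rcases cover he.spr hx with h1 | h1
  · have h2 : EE e h h' =ᶠ[𝓝 x] fun x => rt e x * Up h x := by
      filter_upwards [(isOpen_Dn e).mem_nhds h1] with y hy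
      exact EE_up hy
    rw [h2.differentiableAt_iff]
    exact (hasDerivAt_rt h1).differentiableAt.mul (p.g.hasDerivAt he.sep h1).differentiableAt
  · have h2 : EE e h h' =ᶠ[𝓝 x] fun x => rt' e x * Down h' x := by
      filter_upwards [(isOpen_Dn' e).mem_nhds h1] with y hy
      exact EE_down he p h0 hy
    rw [h2.differentiableAt_iff]
    have h3 : DifferentiableAt ℂ (rt' e) x := by
      unfold rt'
      apply DifferentiableAt.const_mul
      exact (hasDerivAt_rt h1).differentiableAt.comp x differentiableAt_id.neg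
    exact h3.mul (p.down_deriv he.sep h1).differentiableAt

theorem norm_rt_near {e : Fin 5 → ℂ} (he : Sep e) {k : Fin 5} {x : ℂ} (hx : ‖x - e k‖ ≤ 1 / 8) :
    ‖rt e x‖ ≤ 49 * Real.sqrt ‖x - e k‖ := by
  rw [norm_rt, ← Finset.mul_prod_erase Finset.univ _ (Finset.mem_univ k), mul_comm]
  refine mul_le_mul_of_nonneg_right ?_ (Real.sqrt_nonneg _)
  calc ∏ l ∈ Finset.univ.erase k, Real.sqrt ‖x - e l‖ ≤
      ∏ l ∈ Finset.univ.erase k, Real.sqrt 7 := by
        refine Finset.prod_le_prod (fun _ _ => by positivity) fun l _ => Real.sqrt_le_sqrt ?_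
        have h4 : ‖x - e l‖ ≤ ‖x - e k‖ + ‖e k‖ + ‖e l‖ := by
          calc ‖x - e l‖ = ‖(x - e k) + e k - e l‖ := by congr 1; ring
            _ ≤ ‖(x - e k) + e k‖ + ‖e l‖ := norm_sub_le _ _
            _ ≤ _ := by gcongr; exact norm_add_le _ _
        have := he.bd l
        have := he.bd k
        linarith
    _ = 49 := by
        rw [Finset.prod_const, Finset.card_erase_of_mem (Finset.mem_univ _)]
        simp only [Finset.card_univ, Fintype.card_fin]
        rw [show (5 - 1 : ℕ) = 2 * 2 by norm_num, pow_mul, Real.sq_sqrt (by norm_num)]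
        norm_num

theorem norm_rt_inf {e : Fin 5 → ℂ} (he : Sep e) {x : ℂ} (hx : 8 ≤ ‖x‖) :
    ‖rt e x‖ ≤ 8 * ‖x‖ ^ 2 * Real.sqrt ‖x‖ := by
  rw [norm_rt]
  calc ∏ l, Real.sqrt ‖x - e l‖ ≤ ∏ l : Fin 5, Real.sqrt (2 * ‖x‖) := by
        refine Finset.prod_le_prod (fun _ _ => by positivity) fun l _ => Real.sqrt_le_sqrt ?_
        have := norm_sub_le x (e l)
        have := he.bd l
        linarith
    _ = 4 * ‖x‖ ^ 2 * Real.sqrt (2 * ‖x‖) := by
        rw [Finset.prod_const]
        simp only [Finset.card_univ, Fintype.card_fin]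
        rw [show (5 : ℕ) = 2 * 2 + 1 by norm_num, pow_succ, pow_mul,
          Real.sq_sqrt (by positivity)]
        ring
    _ ≤ 4 * ‖x‖ ^ 2 * (2 * Real.sqrt ‖x‖) := by
        have h1 : Real.sqrt (2 * ‖x‖) ≤ 2 * Real.sqrt ‖x‖ := by
          rw [Real.sqrt_le_left (by positivity), mul_pow, Real.sq_sqrt (norm_nonneg _)]
          linarith
        gcongr
    _ = _ := by ring

theorem EE_near {e : Fin 5 → ℂ} (he : Near e) {h h' : ℂ → ℂ} (p : Pr e h h')
    (h0 : ∀ j : ℕ, 1 ≤ j → j ≤ 4 → Ln h (ln j) = 0) :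
    ∃ C : ℝ, ∀ (k : Fin 5) (x : ℂ), x ≠ e k → ‖x - e k‖ ≤ 1 / 8 → ‖EE e h h' x‖ ≤ C := by
  obtain ⟨C, hC, h1⟩ := up_near he.spr p.g
  obtain ⟨C', hC', h2⟩ := up_near he.spr.neg p.g'
  refine ⟨49 * C + 49 * C', fun k x hxk hx => ?_⟩
  have hpos : 0 < ‖x - e k‖ := norm_pos_iff.2 (sub_ne_zero.2 hxk)
  have hs := Real.sqrt_pos.2 hpos
  have hne : ∀ l, l ≠ k → (x - e l).re ≠ 0 := by
    intro l hl h3
    have h4 : (x - e l).re = (x - e k).re + ((e k).re - (e l).re) := by simp
    have h5 := he.spr.re k l (Ne.symm hl)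
    have h6 := (abs_re_le_norm (x - e k)).trans hx
    have h7 : (e k).re - (e l).re = -(x - e k).re := by linarith
    rw [h7, abs_neg] at h5
    linarith
  have hx0 : x - e k ≠ 0 := sub_ne_zero.2 hxk
  rcases le_total 0 (x - e k).im with hi | hi
  · have h3 : x ∈ Dn e := by
      intro l
      by_cases hl : l = k
      · subst hl
        by_cases hr : (x - e l).re = 0
        · right
          exact lt_of_le_of_ne hi fun h => hx0 (Complex.ext hr h.symm)
        · left; exact hr
      · left; exact hne l hl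
    rw [EE_up h3, norm_mul]
    calc ‖rt e x‖ * ‖Up h x‖ ≤ (49 * Real.sqrt ‖x - e k‖) * (C * (Real.sqrt ‖x - e k‖)⁻¹) := by
          gcongr
          · exact norm_rt_near he.sep hx
          · exact h1 k x hxk hx hi
      _ = 49 * C := by field_simp
      _ ≤ _ := by linarith
  · have h3 : -x ∈ Dn (-e) := by
      intro l
      by_cases hl : l = k
      · subst hl
        by_cases hr : (x - e l).re = 0
        · right
          have : (-x - (-e) l).im = -(x - e l).im := by simp; ring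
          rw [this]
          have := lt_of_le_of_ne hi fun h => hx0 (Complex.ext hr h)
          linarith
        · left
          have h4 : (-x - (-e) l).re = -(x - e l).re := by simp; ring
          rw [h4]
          exact neg_ne_zero.2 hr
      · left
        have h4 : (-x - (-e) l).re = -(x - e l).re := by simp; ring
        rw [h4]
        exact neg_ne_zero.2 (hne l hl)
    have h4 : ‖-x - (-e) k‖ = ‖x - e k‖ := by
      rw [← norm_neg]
      congr 1
      simp only [Pi.neg_apply]; ring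
    have h5 : -x ≠ (-e) k := by
      simp only [Pi.neg_apply, ne_eq, neg_inj]
      exact hxk
    have h6 : 0 ≤ (-x - (-e) k).im := by
      have : (-x - (-e) k).im = -(x - e k).im := by simp; ring
      rw [this]; linarith
    have h7 := h2 k (-x) h5 (by rw [h4]; exact hx) h6
    rw [h4] at h7
    have h8 : ‖rt' e x‖ = ‖rt e x‖ := by rw [norm_rt', norm_rt]
    rw [EE_down he p h0 h3, norm_mul, h8]
    unfold Down
    rw [norm_neg]
    calc ‖rt e x‖ * ‖Up (fun y => h' (-y)) (-x)‖ ≤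
          (49 * Real.sqrt ‖x - e k‖) * (C' * (Real.sqrt ‖x - e k‖)⁻¹) := by
          gcongr
          exact norm_rt_near he.sep hx
      _ = 49 * C' := by field_simp
      _ ≤ _ := by linarith

theorem Dn_inf {e : Fin 5 → ℂ} (he : Sep e) (hi : ∀ k, |(e k).im| ≤ 1 / 4) {x : ℂ}
    (hx : 8 ≤ ‖x‖) (hx0 : 0 ≤ x.im) : x ∈ Dn e := by
  intro k
  by_cases hr : (x - e k).re = 0
  · right
    have h1 : 5 ≤ ‖x - e k‖ := by
      have h4 : ‖x‖ ≤ ‖x - e k‖ + ‖e k‖ := by
        calc ‖x‖ = ‖(x - e k) + e k‖ := by congr 1; ring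
          _ ≤ _ := norm_add_le _ _
      have := he.bd k
      linarith
    have h2 : ‖x - e k‖ ≤ |(x - e k).re| + |(x - e k).im| := Complex.norm_le_abs_re_add_abs_im _
    rw [hr, abs_zero, zero_add] at h2
    have h3 : (x - e k).im = x.im - (e k).im := sub_im _ _
    have h4 := abs_le.1 (hi k)
    by_contra h5
    push Not at h5
    rw [abs_of_nonpos h5] at h2
    linarith [h4.2]
  · left; exact hr

theorem _root_.Pool.Agent.H840.AS.Near.im {e : Fin 5 → ℂ} (h : Near e) (k : Fin 5) :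
    |(e k).im| ≤ 1 / 4 := by
  refine le_trans ?_ (h k).le
  have : (e k - (((k:ℕ) - 2 : ℝ) : ℂ)).im = (e k).im := by
    rw [sub_im, ofReal_im, sub_zero]
  rw [← this]
  exact abs_im_le_norm _

theorem EE_inf {e : Fin 5 → ℂ} (he : Near e) {h h' : ℂ → ℂ} (p : Pr e h h')
    (h0 : ∀ j : ℕ, 1 ≤ j → j ≤ 4 → Ln h (ln j) = 0) :
    ∃ C : ℝ, 0 ≤ C ∧ ∀ x : ℂ, 8 ≤ ‖x‖ → ‖EE e h h' x‖ ≤ C * ‖x‖ ^ 2 := by
  obtain ⟨C, hC, h1⟩ := up_inf he.sep p.g
  obtain ⟨C', hC', h2⟩ := up_inf he.sep.neg p.g'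
  refine ⟨8 * C + 8 * C', by positivity, fun x hx => ?_⟩
  have hpos : 0 < ‖x‖ := by linarith
  have hs := Real.sqrt_pos.2 hpos
  rcases le_total 0 x.im with hi | hi
  · rw [EE_up (Dn_inf he.sep he.im hx hi), norm_mul]
    calc ‖rt e x‖ * ‖Up h x‖ ≤ (8 * ‖x‖ ^ 2 * Real.sqrt ‖x‖) * (C * (Real.sqrt ‖x‖)⁻¹) := by
          gcongr
          · exact norm_rt_inf he.sep hx
          · exact h1 x hx hi
      _ = 8 * C * ‖x‖ ^ 2 := by field_simp
      _ ≤ _ := by
          have : 0 ≤ 8 * C' * ‖x‖ ^ 2 := by positivity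
          linarith
  · have h3 : -x ∈ Dn (-e) := by
      refine Dn_inf he.sep.neg (fun k => ?_) (by rw [norm_neg]; exact hx) (by simpa using hi)
      simpa using he.im k
    have h7 := h2 (-x) (by rw [norm_neg]; exact hx) (by simpa using hi)
    rw [norm_neg] at h7
    have h8 : ‖rt' e x‖ = ‖rt e x‖ := by rw [norm_rt', norm_rt]
    rw [EE_down he p h0 h3, norm_mul, h8]
    unfold Down
    rw [norm_neg]
    calc ‖rt e x‖ * ‖Up (fun y => h' (-y)) (-x)‖ ≤
          (8 * ‖x‖ ^ 2 * Real.sqrt ‖x‖) * (C' * (Real.sqrt ‖x‖)⁻¹) := by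
          gcongr
          exact norm_rt_inf he.sep hx
      _ = 8 * C' * ‖x‖ ^ 2 := by field_simp
      _ ≤ _ := by
          have : 0 ≤ 8 * C * ‖x‖ ^ 2 := by positivity
          linarith

/-- Removal of finitely many singularities. -/
theorem extend {f : ℂ → ℂ} {S : Set ℂ} (hS : S.Finite)
    (hd : ∀ x, x ∉ S → DifferentiableAt ℂ f x)
    (hb : ∀ s ∈ S, IsBoundedUnder (· ≤ ·) (𝓝[≠] s) fun z => ‖f z - f s‖) :
    ∃ g : ℂ → ℂ, Differentiable ℂ g ∧ ∀ x, x ∉ S → g x = f x := by
  have hev : ∀ x : ℂ, ∀ᶠ z in 𝓝[≠] x, z ∉ S := by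
    intro x
    have h1 : (S \ {x})ᶜ ∈ 𝓝 x := by
      refine (hS.subset sdiff_subset).isClosed.isOpen_compl.mem_nhds ?_
      intro h; exact h.2 rfl
    filter_upwards [mem_nhdsWithin_of_mem_nhds h1, self_mem_nhdsWithin] with z hz hzx hzS
    exact hz ⟨hzS, hzx⟩
  have hg : ∀ x, x ∉ S → limUnder (𝓝[≠] x) f = f x := fun x hx =>
    ((hd x hx).continuousAt.tendsto.mono_left nhdsWithin_le_nhds).limUnder_eq
  refine ⟨fun x => limUnder (𝓝[≠] x) f, ?_, hg⟩
  intro x
  have hdx : ∀ᶠ z in 𝓝[≠] x, DifferentiableAt ℂ f z := (hev x).mono hd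
  by_cases hx : x ∈ S
  · have h1 := tendsto_limUnder_of_differentiable_on_punctured_nhds_of_bounded_under hdx (hb x hx)
    have h2 : ContinuousAt (fun x => limUnder (𝓝[≠] x) f) x := by
      rw [continuousAt_iff_punctured_nhds]
      refine h1.congr' ?_
      filter_upwards [hev x] with z hz
      exact (hg z hz).symm
    refine (analyticAt_of_differentiable_on_punctured_nhds_of_continuousAt ?_ h2).differentiableAt
    have h3 : ∀ᶠ z in 𝓝[≠] x, ∀ᶠ w in 𝓝 z, w ∉ S := by
      filter_upwards [hev x] with z hz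
      exact hS.isClosed.isOpen_compl.mem_nhds hz
    filter_upwards [h3] with z hz
    have h4 : (fun x => limUnder (𝓝[≠] x) f) =ᶠ[𝓝 z] f := hz.mono hg
    rw [h4.differentiableAt_iff]
    exact hd z hz.self_of_nhds
  · have h3 : ∀ᶠ w in 𝓝 x, w ∉ S := hS.isClosed.isOpen_compl.mem_nhds hx
    have h4 : (fun x => limUnder (𝓝[≠] x) f) =ᶠ[𝓝 x] f := h3.mono hg
    rw [h4.differentiableAt_iff]
    exact hd x hx

/-- Liouville. -/
theorem quadratic {g : ℂ → ℂ} (hg : Differentiable ℂ g) {C : ℝ} (hC : 0 ≤ C)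
    (hb : ∀ x : ℂ, 8 ≤ ‖x‖ → ‖g x‖ ≤ C * ‖x‖ ^ 2) :
    ∃ a b c : ℂ, ∀ x, g x = a + b * x + c * x ^ 2 := by
  have h3 : ∀ z, iteratedDeriv 3 g z = 0 := by
    intro z
    have h1 : ∀ R : ℝ, ‖z‖ + 8 ≤ R → ‖iteratedDeriv 3 g z‖ ≤ 24 * C * R⁻¹ := by
      intro R hR
      have hz := norm_nonneg z
      have hR0 : 0 < R := by linarith
      have h2 := norm_iteratedDeriv_le_of_forall_mem_sphere_norm_le (c := z) (R := R)
        (C := C * (2 * R) ^ 2) (f := g) 3 hR0 hg.diffContOnCl (by
          intro w hw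
          rw [mem_sphere, dist_eq_norm] at hw
          have h4 : R ≤ ‖w‖ + ‖z‖ := by rw [← hw]; exact norm_sub_le _ _
          have h5 : ‖w‖ ≤ R + ‖z‖ := by
            calc ‖w‖ = ‖(w - z) + z‖ := by congr 1; ring
              _ ≤ ‖w - z‖ + ‖z‖ := norm_add_le _ _
              _ = _ := by rw [hw]
          refine (hb w (by linarith)).trans ?_
          gcongr
          linarith)
      refine h2.trans (le_of_eq ?_)
      have : Nat.factorial 3 = 6 := rfl
      rw [this]
      push_cast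
      field_simp
      ring
    have h4 : Tendsto (fun R : ℝ => 24 * C * R⁻¹) atTop (𝓝 (24 * C * 0)) :=
      tendsto_inv_atTop_zero.const_mul _
    rw [mul_zero] at h4
    have h5 : ‖iteratedDeriv 3 g z‖ ≤ 0 := by
      refine ge_of_tendsto h4 ?_
      filter_upwards [eventually_ge_atTop (‖z‖ + 8)] with R hR
      exact h1 R hR
    exact norm_le_zero_iff.1 h5
  have hd1 : Differentiable ℂ (deriv g) := by
    have := hg.analyticAt
    exact fun x => (this x).deriv.differentiableAt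
  have hd2 : Differentiable ℂ (deriv (deriv g)) := fun x =>
    (hg.analyticAt x).deriv.deriv.differentiableAt
  have h4 : ∀ z, deriv (deriv (deriv g)) z = 0 := by
    intro z
    have := h3 z
    rwa [iteratedDeriv_succ, iteratedDeriv_succ, iteratedDeriv_one] at this
  set c2 := deriv (deriv g) 0 with hc2
  have h5 : ∀ z, deriv (deriv g) z = c2 := fun z => is_const_of_deriv_eq_zero hd2 h4 z 0
  set b := deriv g 0 with hb'
  have h6 : ∀ z, deriv g z = b + c2 * z := by
    intro z
    have h7 : ∀ w, HasDerivAt (fun w => deriv g w - c2 * w) 0 w := by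
      intro w
      have := (hd1 w).hasDerivAt.sub ((hasDerivAt_id' w).const_mul c2)
      rw [h5 w, mul_one, sub_self] at this
      exact this
    have h8 := is_const_of_deriv_eq_zero (fun w => (h7 w).differentiableAt)
      (fun w => (h7 w).deriv) z 0
    simp only [mul_zero, sub_zero] at h8
    linear_combination h8
  refine ⟨g 0, b, c2 / 2, fun z => ?_⟩
  have h7 : ∀ w, HasDerivAt (fun w => g w - b * w - c2 / 2 * w ^ 2) 0 w := by
    intro w
    have := ((hg w).hasDerivAt.sub ((hasDerivAt_id' w).const_mul b)).sub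
      (((hasDerivAt_id' w).pow 2).const_mul (c2 / 2))
    refine this.congr_deriv ?_
    rw [h6 w]
    push_cast
    ring
  have h8 := is_const_of_deriv_eq_zero (fun w => (h7 w).differentiableAt)
    (fun w => (h7 w).deriv) z 0
  simp only [mul_zero, sub_zero, ne_eq, OfNat.ofNat_ne_zero, not_false_eq_true, zero_pow] at h8
  linear_combination h8

end Pool.Agent.H988.TOR
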